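import Pool.Agent.CBG.StmtsA

/-!
# Squad CBG, row PAR: differentiation under the integral over the unit square
-/

set_option autoImplicit false
set_option maxSynthPendingDepth 3

open scoped Manifold ContDiff Topology
open Set Filter MeasureTheory Metric

namespace Pool.Agent.CBG.H19

open Pool.Agent.CBG

theorem three_le : (3 : WithTop ℕ∞) ≤ ∞ := by
  show ((3 : ℕ∞) : WithTop ℕ∞) ≤ ((⊤ : ℕ∞) : WithTop ℕ∞)
  exact WithTop.coe_le_coe.2 le_top

/-- the closed unit square -/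
def KK : Set (ℝ × ℝ) := Icc (0 : ℝ) 1 ×ˢ Icc (0 : ℝ) 1

theorem isCompact_KK : IsCompact KK := isCompact_Icc.prod isCompact_Icc

/-- the half open unit square -/
def K0 : Set (ℝ × ℝ) := Ioc (0 : ℝ) 1 ×ˢ Ioc (0 : ℝ) 1

theorem K0_sub : K0 ⊆ KK := prod_mono Ioc_subset_Icc_self Ioc_subset_Icc_self

theorem measurableSet_K0 : MeasurableSet K0 := measurableSet_Ioc.prod measurableSet_Ioc

theorem mu_eq : mu = (volume : Measure (ℝ × ℝ)).restrict K0 := by
  unfold mu K0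
  rw [Measure.prod_restrict]
  rfl

instance : IsFiniteMeasure mu := by
  unfold mu
  infer_instance

theorem ae_mem : ∀ᵐ t ∂mu, t ∈ K0 := by
  rw [mu_eq]
  exact ae_restrict_mem measurableSet_K0

section

variable {E F : Type} [NormedAddCommGroup E] [NormedSpace ℝ E] [NormedAddCommGroup F]
  [NormedSpace ℝ F]

/-- the derivative in the second variable -/
noncomputable def D1 (f : (ℝ × ℝ) × E → F) : (ℝ × ℝ) × E → (E →L[ℝ] F) :=
  fun q => fderiv ℝ (fun y => f (q.1, y)) q.2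

theorem D1_contDiffAt {f : (ℝ × ℝ) × E → F} {q : (ℝ × ℝ) × E} {m n : WithTop ℕ∞}
    (hf : ContDiffAt ℝ n f q) (hmn : m + 1 ≤ n) : ContDiffAt ℝ m (D1 f) q := by
  unfold D1
  refine ContDiffAt.fderiv (f := fun (p : (ℝ × ℝ) × E) (y : E) => f (p.1, y))
    (g := fun p : (ℝ × ℝ) × E => p.2) (n := n) ?_ contDiffAt_snd hmn
  have h2 : ContDiffAt ℝ n (fun p : ((ℝ × ℝ) × E) × E => ((p.1.1, p.2) : (ℝ × ℝ) × E))
      (q, q.2) := by
    apply ContDiff.contDiffAt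
    fun_prop
  exact ContDiffAt.comp (q, q.2) (g := f) (by exact hf) h2

omit [NormedSpace ℝ E] [NormedSpace ℝ F] in
theorem loc_bound [ProperSpace E] {g : (ℝ × ℝ) × E → F} {r : ℝ}
    (h : ∀ t ∈ KK, ∀ y ∈ ball (0 : E) r, ContinuousAt g (t, y)) {y : E}
    (hy : y ∈ ball (0 : E) r) :
    ∃ δ : ℝ, 0 < δ ∧ closedBall y δ ⊆ ball (0 : E) r ∧
      ∃ C : ℝ, ∀ t ∈ KK, ∀ z ∈ closedBall y δ, ‖g (t, z)‖ ≤ C := by
  obtain ⟨δ, hδ, hsub⟩ := nhds_basis_closedBall.mem_iff.1 (isOpen_ball.mem_nhds hy)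
  refine ⟨δ, hδ, hsub, ?_⟩
  have hc : ContinuousOn g (KK ×ˢ closedBall y δ) := by
    rintro ⟨t, z⟩ ⟨ht, hz⟩
    exact (h t ht z (hsub hz)).continuousWithinAt
  obtain ⟨C, hC⟩ := (isCompact_KK.prod (isCompact_closedBall y δ)).exists_bound_of_continuousOn hc
  exact ⟨C, fun t ht z hz => hC (t, z) ⟨ht, hz⟩⟩

omit [NormedSpace ℝ E] [NormedSpace ℝ F] in
theorem meas_of {g : (ℝ × ℝ) × E → F} {y : E} (h : ∀ t ∈ KK, ContinuousAt g (t, y)) :
    AEStronglyMeasurable (fun t => g (t, y)) mu := by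
  rw [mu_eq]
  apply ContinuousOn.aestronglyMeasurable _ measurableSet_K0
  intro t ht
  apply ContinuousAt.continuousWithinAt
  have h2 : ContinuousAt (fun s : ℝ × ℝ => ((s, y) : (ℝ × ℝ) × E)) t := by fun_prop
  exact ContinuousAt.comp (g := g) (by exact h t (K0_sub ht)) h2

theorem integrable_of {g : (ℝ × ℝ) × E → F} {y : E} (h : ∀ t ∈ KK, ContinuousAt g (t, y)) {C : ℝ}
    (hC : ∀ t ∈ KK, ‖g (t, y)‖ ≤ C) : Integrable (fun t => g (t, y)) mu := by
  refine Integrable.mono' (integrable_const C) (meas_of h) ?_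
  filter_upwards [ae_mem] with t ht
  exact hC t (K0_sub ht)

theorem cont_int [ProperSpace E] {g : (ℝ × ℝ) × E → F} {r : ℝ}
    (h : ∀ t ∈ KK, ∀ y ∈ ball (0 : E) r, ContinuousAt g (t, y)) {y : E}
    (hy : y ∈ ball (0 : E) r) : ContinuousAt (fun y => ∫ t, g (t, y) ∂mu) y := by
  obtain ⟨δ, hδ, hsub, C, hC⟩ := loc_bound h hy
  have hn : closedBall y δ ∈ 𝓝 y := closedBall_mem_nhds y hδ
  refine continuousAt_of_dominated (bound := fun _ => C) ?_ ?_ (integrable_const C) ?_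
  · filter_upwards [hn] with z hz
    exact meas_of (fun t ht => h t ht z (hsub hz))
  · filter_upwards [hn] with z hz
    filter_upwards [ae_mem] with t ht
    exact hC t (K0_sub ht) z hz
  · filter_upwards [ae_mem] with t ht
    have h2 : ContinuousAt (fun z : E => ((t, z) : (ℝ × ℝ) × E)) y := by fun_prop
    exact ContinuousAt.comp (g := g) (by exact h t (K0_sub ht) y hy) h2

theorem step [ProperSpace E] {g : (ℝ × ℝ) × E → F} {r : ℝ}
    (h : ∀ t ∈ KK, ∀ y ∈ ball (0 : E) r, ContDiffAt ℝ 1 g (t, y)) {y : E}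
    (hy : y ∈ ball (0 : E) r) :
    HasFDerivAt (fun y => ∫ t, g (t, y) ∂mu) (∫ t, D1 g (t, y) ∂mu) y := by
  have h' : ∀ t ∈ KK, ∀ y ∈ ball (0 : E) r, ContinuousAt (D1 g) (t, y) := fun t ht z hz =>
    (D1_contDiffAt (m := 0) (h t ht z hz) (by norm_num)).continuousAt
  have h0 : ∀ t ∈ KK, ∀ y ∈ ball (0 : E) r, ContinuousAt g (t, y) := fun t ht z hz =>
    (h t ht z hz).continuousAt
  obtain ⟨δ, hδ, hsub, C, hC⟩ := loc_bound h' hy
  obtain ⟨δ', hδ', hsub', C', hC'⟩ := loc_bound h0 hy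
  have hn : closedBall y δ ∈ 𝓝 y := closedBall_mem_nhds y hδ
  refine hasFDerivAt_integral_of_dominated_of_fderiv_le (F := fun z t => g (t, z))
    (F' := fun z t => D1 g (t, z)) (bound := fun _ => C) hn ?_ ?_ ?_ ?_ (integrable_const C) ?_
  · filter_upwards [hn] with z hz
    exact meas_of (fun t ht => h0 t ht z (hsub hz))
  · exact integrable_of (fun t ht => h0 t ht y hy)
      (fun t ht => hC' t ht y (mem_closedBall_self hδ'.le))
  · exact meas_of (fun t ht => h' t ht y hy)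
  · filter_upwards [ae_mem] with t ht
    intro z hz
    exact hC t (K0_sub ht) z hz
  · filter_upwards [ae_mem] with t ht
    intro z hz
    have hd : DifferentiableAt ℝ (fun w : E => g (t, w)) z := by
      have h2 : ContDiffAt ℝ 1 (fun w : E => ((t, w) : (ℝ × ℝ) × E)) z := by
        apply ContDiff.contDiffAt
        fun_prop
      have h3 : ContDiffAt ℝ 1 (fun w : E => g (t, w)) z :=
        ContDiffAt.comp z (g := g) (by exact h t (K0_sub ht) z (hsub hz)) h2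
      exact h3.differentiableAt (by norm_num)
    exact hd.hasFDerivAt

end

theorem par : ParStmt := by
  intro n F _ _ _ f hf
  have hev : ∀ᶠ y in 𝓝 (0 : Ed n), ∀ t ∈ KK, ContDiffAt ℝ 3 f (t, y) := by
    apply isCompact_KK.eventually_forall_of_forall_eventually
      (P := fun (y : Ed n) (t : ℝ × ℝ) => ContDiffAt ℝ 3 f (t, y))
    intro t _
    have h3 : ContDiffAt ℝ 3 f (t, 0) := (hf t).of_le three_le
    have h4 := h3.eventually (by decide)
    have h5 : Tendsto (fun z : Ed n × (ℝ × ℝ) => ((z.2, z.1) : (ℝ × ℝ) × Ed n)) (𝓝 (0, t))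
        (𝓝 (t, 0)) := continuous_swap.tendsto (0, t)
    exact h5.eventually h4
  obtain ⟨r, hr, hball⟩ := Metric.eventually_nhds_iff_ball.1 hev
  have hr0 : (0 : Ed n) ∈ ball (0 : Ed n) r := mem_ball_self hr
  have c3 : ∀ t ∈ KK, ∀ y ∈ ball (0 : Ed n) r, ContDiffAt ℝ 3 f (t, y) := fun t ht y hy =>
    hball y hy t ht
  have c2 : ∀ t ∈ KK, ∀ y ∈ ball (0 : Ed n) r, ContDiffAt ℝ 2 (D1 f) (t, y) := fun t ht y hy =>
    D1_contDiffAt (c3 t ht y hy) (by norm_num)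
  have c1 : ∀ t ∈ KK, ∀ y ∈ ball (0 : Ed n) r, ContDiffAt ℝ 1 (D1 (D1 f)) (t, y) :=
    fun t ht y hy => D1_contDiffAt (c2 t ht y hy) (by norm_num)
  have s1 : ∀ y ∈ ball (0 : Ed n) r,
      HasFDerivAt (fun y => ∫ t, f (t, y) ∂mu) (∫ t, D1 f (t, y) ∂mu) y := fun y hy =>
    step (fun t ht z hz => (c3 t ht z hz).of_le (by norm_num)) hy
  have s2 : ∀ y ∈ ball (0 : Ed n) r,
      HasFDerivAt (fun y => ∫ t, D1 f (t, y) ∂mu) (∫ t, D1 (D1 f) (t, y) ∂mu) y := fun y hy =>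
    step (fun t ht z hz => (c2 t ht z hz).of_le (by norm_num)) hy
  have s3 : ∀ y ∈ ball (0 : Ed n) r, ContinuousAt (fun y => ∫ t, D1 (D1 f) (t, y) ∂mu) y :=
    fun y hy => cont_int (fun t ht z hz => (c1 t ht z hz).continuousAt) hy
  have hnb : ball (0 : Ed n) r ∈ 𝓝 (0 : Ed n) := ball_mem_nhds _ hr
  have hfd : fderiv ℝ (fun y => ∫ t, f (t, y) ∂mu) =ᶠ[𝓝 0] fun y => ∫ t, D1 f (t, y) ∂mu := by
    filter_upwards [hnb] with y hy
    exact (s1 y hy).fderiv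
  have emb : ∀ t : ℝ × ℝ, ContinuousAt (fun s : ℝ × ℝ => ((s, 0) : (ℝ × ℝ) × Ed n)) t := by
    intro t
    fun_prop
  have hf1 : ∀ t : ℝ × ℝ, ContDiffAt ℝ 2 (D1 f) (t, 0) := fun t =>
    D1_contDiffAt (n := 3) ((hf t).of_le three_le) (by norm_num)
  have hf2 : ∀ t : ℝ × ℝ, ContDiffAt ℝ 1 (D1 (D1 f)) (t, 0) := fun t =>
    D1_contDiffAt (hf1 t) (by norm_num)
  refine ⟨?_, ?_, ?_, ?_, ?_, ?_⟩
  · rw [continuous_iff_continuousAt]
    intro t
    exact ContinuousAt.comp (g := f) (by exact (hf t).continuousAt) (emb t)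
  · rw [continuous_iff_continuousAt]
    intro t
    exact ContinuousAt.comp (g := D1 f) (by exact (hf1 t).continuousAt) (emb t)
  · rw [continuous_iff_continuousAt]
    intro t
    exact ContinuousAt.comp (g := D1 (D1 f)) (by exact (hf2 t).continuousAt) (emb t)
  · have e2 : (2 : WithTop ℕ∞) = ((1 : ℕ) : WithTop ℕ∞) + 1 := by norm_num
    rw [e2, contDiffAt_succ_iff_hasFDerivAt]
    refine ⟨fun y => ∫ t, D1 f (t, y) ∂mu, ⟨ball 0 r, hnb, s1⟩, ?_⟩
    have e1 : ((1 : ℕ) : WithTop ℕ∞) = ((0 : ℕ) : WithTop ℕ∞) + 1 := by norm_num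
    rw [e1, contDiffAt_succ_iff_hasFDerivAt]
    refine ⟨fun y => ∫ t, D1 (D1 f) (t, y) ∂mu, ⟨ball 0 r, hnb, s2⟩, ?_⟩
    have e0 : ((0 : ℕ) : WithTop ℕ∞) = 0 := by norm_num
    rw [e0, contDiffAt_zero]
    exact ⟨ball 0 r, hnb, fun y hy => (s3 y hy).continuousWithinAt⟩
  · exact (s1 0 hr0).fderiv
  · rw [hfd.fderiv_eq]
    exact (s2 0 hr0).fderiv

end Pool.Agent.CBG.H19
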